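import Pool.Agent.U762.GA.Stm
import Pool.Agent.U94.GA.REC2
import Pool.Agent.U789.GA.ANAg
import Pool.Agent.U375.GA.ETA
import Pool.Agent.U962.GA.BCc
import Pool.Agent.U733.GA.DETc
import Pool.Agent.U660.GA.NUM
import Pool.Agent.U762.RP.All

set_option autoImplicit false

/-! # Project GA: assembly -/

namespace Pool.Agent.U762.GA

open Finset MeasureTheory Filter Pool.Agent.U762.RP

theorem lenb (d : ℕ) (m r : ℤ → ℤ) (hR : Rel d m r) (θ lam ε c : ℝ) (h0 : 0 < θ) (h1 : θ < 1) (hl0 : 0 < lam)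
    (hl1 : lam < 1) (hsum : (∑ j ∈ range d, ((m (j : ℤ) : ℝ) / d) ^ θ) / d < lam) (he0 : 0 < ε) (he1 : ε < 1)
    (hmax : ∀ j ∈ range d, (1 - ε) * ((m (j : ℤ) : ℝ) / d) ^ θ < lam) (hc : 1 + θ < c * Real.log (1 / lam)) :
    ∃ K : ℕ, ∀ (B : ℕ) (μ : Measure ℤ) [IsProbabilityMeasure μ], μ {u : ℤ | (B : ℤ) < |u|} = 0 →
      (∀ u : ℤ, 0 ≤ u → u < (d : ℤ) ^ K → ε / (d : ℝ) ^ K ≤ μ.real {u}) →
      ∀ᵐ ω ∂(Measure.infinitePi fun _ : ℤ => μ), ∃ C : ℝ, ∀ x : ℤ,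
        (Set.range fun i : ℕ => (stp d m r ω)^[i] x).Finite ∧
          ((Set.range fun i : ℕ => (stp d m r ω)^[i] x).ncard : ℝ) ≤ c * Real.log (2 + |(x : ℝ)|) + C := by
  obtain ⟨η, hη, h2, h3⟩ := Pool.Agent.U375.GA.t_ETA d m hR.two_le hR.pos θ lam ε h0 he0 he1 hsum hmax
  obtain ⟨K, hK⟩ := Pool.Agent.U789.GA.t_ANAg Pool.Agent.U94.GA.REC2.t_REC2
    (Pool.Agent.U97.RP.t_WC Pool.Agent.U594.RP.t_AVG) d m r hR θ η lam h0 h1 hη hl0 hl1 h2 ε he0 he1 h3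
  refine ⟨K, fun B μ hμ hB hmass => ?_⟩
  obtain ⟨M, C, hM, hC, h⟩ := hK (max B (d ^ K)) (le_max_right _ _)
  have hsum1 : ∑ u ∈ Icc (-((max B (d ^ K) : ℕ) : ℤ)) ((max B (d ^ K) : ℕ) : ℤ), μ.real {u} ≤ 1 := by
    have h1 : μ.real (↑(Icc (-((max B (d ^ K) : ℕ) : ℤ)) ((max B (d ^ K) : ℕ) : ℤ)) : Set ℤ) =
        ∑ u ∈ Icc (-((max B (d ^ K) : ℕ) : ℤ)) ((max B (d ^ K) : ℕ) : ℤ), μ.real {u} := by
      rw [sum_measureReal_singleton]
    rw [← h1]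
    exact measureReal_le_one
  have hbdd : μ {u : ℤ | ((max B (d ^ K) : ℕ) : ℤ) < |u|} = 0 := by
    refine measure_mono_null (fun u hu => ?_) hB
    have hu' : ((max B (d ^ K) : ℕ) : ℤ) < |u| := hu
    show (B : ℤ) < |u|
    exact lt_of_le_of_lt (Nat.cast_le.2 (le_max_left _ _)) hu'
  have hV := h M le_rfl (fun u => μ.real {u}) (fun u => measureReal_nonneg) hsum1 hmass
  have hc0 : 0 < c := by
    have hlog : 0 < Real.log (1 / lam) := Real.log_pos (by rw [lt_div_iff₀ hl0]; linarith)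
    by_contra hcc
    have : c * Real.log (1 / lam) ≤ 0 := mul_nonpos_of_nonpos_of_nonneg (not_lt.1 hcc) hlog.le
    linarith
  have hbc := Pool.Agent.U962.GA.t_BCc Pool.Agent.U511.RP.t_PRB d m r μ (max B (d ^ K)) hbdd M C lam θ c hM hC hl0 hl1 h0 hc hV
  filter_upwards [hbc] with ω h5
  exact Pool.Agent.U733.GA.t_DETc d m r M c ω hc0 h5

/-- the 3x+1 map -/
theorem lenb3 (ε : ℝ) (he0 : 1 / 5 ≤ ε) (he1 : ε < 1) :
    ∃ K : ℕ, ∀ (B : ℕ) (μ : Measure ℤ) [IsProbabilityMeasure μ], μ {u : ℤ | (B : ℤ) < |u|} = 0 →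
      (∀ u : ℤ, 0 ≤ u → u < (2 : ℤ) ^ K → ε / (2 : ℝ) ^ K ≤ μ.real {u}) →
      ∀ᵐ ω ∂(Measure.infinitePi fun _ : ℤ => μ), ∃ C : ℝ, ∀ x : ℤ,
        (Set.range fun i : ℕ => (cst 3 ω)^[i] x).Finite ∧
          ((Set.range fun i : ℕ => (cst 3 ω)^[i] x).ncard : ℝ) ≤ 42 * Real.log (2 + |(x : ℝ)|) + C := by
  obtain ⟨n1, n2, n3, n4⟩ := Pool.Agent.U660.GA.t_NUM
  have hm0 : ((mq 3 ((0 : ℕ) : ℤ) : ℤ) : ℝ) / (2 : ℕ) = 1 / 2 := by simp [mq]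
  have hm1 : ((mq 3 ((1 : ℕ) : ℤ) : ℤ) : ℝ) / (2 : ℕ) = 3 / 2 := by simp [mq]
  obtain ⟨K, hK⟩ := lenb 2 (mq 3) rq (rel_col (by decide)) (2 / 5) 0.9671 ε 42 (by norm_num) (by norm_num)
    (by norm_num) (by norm_num) (by
      rw [sum_range_succ, sum_range_one, hm0, hm1]
      exact_mod_cast n1) (by linarith) he1 (by
      intro j hj
      have hj' : j = 0 ∨ j = 1 := by
        rw [mem_range] at hj
        omega
      rcases hj' with rfl | rfl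
      · rw [hm0]
        refine lt_of_le_of_lt ?_ n3
        exact mul_le_mul_of_nonneg_right (by linarith) (by positivity)
      · rw [hm1]
        refine lt_of_le_of_lt ?_ n2
        exact mul_le_mul_of_nonneg_right (by linarith) (by positivity)) n4
  refine ⟨K, fun B μ hμ hB hm => ?_⟩
  have := hK B μ hB (by exact_mod_cast hm)
  simp only [cst_eq] at this
  exact this

end Pool.Agent.U762.GA
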