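import Pool.Agent.U762.RP.Fin

set_option autoImplicit false

/-!
# Project GA: the constant in the logarithmic bound for perturbed maps

For the randomly perturbed 3x+1 map with perturbation probability `ε ≥ 1/5` all orbits have at most
`42 log (2+|x|) + C` elements (the Lagarias-Weiss constant is `41.677…`); in general the constant is any `c` with
`c log(1/λ) > 1 + θ`, `λ > (∑ (m_j/d)^θ)/d`, `λ > (1-ε) (m_j/d)^θ`.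
-/

namespace Pool.Agent.U762.GA

open Finset MeasureTheory Filter Pool.Agent.U762.RP

/-- **REC2** (compare `Pool/Agent/U165/RP/REC.lean`).  With `q = (1-ε) R`, `s = max q ρ < lam`:
`g k = q^k + ε R ∑_{j<k} q^j ρ^(k-1-j) ≤ s^k + ε R k s^(k-1) ≤ lam^k` for large `k` (if `s = 0` take any
`s' ∈ (0, lam)` instead of `s`). -/
def S_REC2 : Prop := ∀ ε R ρ lam : ℝ, 0 < ε → ε < 1 → 0 < R → 0 ≤ ρ → ρ < lam → (1 - ε) * R < lam →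
  ∃ k₀ : ℕ, ∀ k : ℕ, k₀ ≤ k → g ε R ρ k ≤ lam ^ k

/-- **ANAg**, from REC2 and WC (adapt `Pool/Agent/U111/RP/ANA.lean`, `Pool/Agent/U312/RP/ANAm.lean`): the rate `lam`
is given.  `R > 0` with `fac^θ ≤ R`, `(1-ε) R < lam`; `ρ = (∑ fac^θ)/d`; `K ≥ 1` with `g K ≤ lam^K`; `M₀` from WC.  So
`Q^K V ≤ lam^K V` pointwise (`Q^K V x = 0` for `|x| < M`), `Q^(K n) V ≤ lam^(K n) V`, and `Q^s V ≤ C' V` for `s < K`. -/
def S_ANAg : Prop := ∀ (d : ℕ) (m r : ℤ → ℤ), Rel d m r → ∀ θ η lam : ℝ, 0 < θ → θ < 1 → 0 < η → 0 < lam → lam < 1 →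
  (∑ j ∈ range d, fac d m η j ^ θ) / d < lam → ∀ ε : ℝ, 0 < ε → ε < 1 →
    (∀ j ∈ range d, (1 - ε) * fac d m η j ^ θ < lam) →
    ∃ K : ℕ, ∀ B : ℕ, d ^ K ≤ B → ∃ M₀ C : ℝ, 1 ≤ M₀ ∧ 0 < C ∧ ∀ M : ℝ, M₀ ≤ M →
      ∀ w : ℤ → ℝ, (∀ u, 0 ≤ w u) → ∑ u ∈ Icc (-(B : ℤ)) B, w u ≤ 1 →
      (∀ u : ℤ, 0 ≤ u → u < (d : ℤ) ^ K → ε / (d : ℝ) ^ K ≤ w u) → ∀ (L : ℕ) (x : ℤ),
        (Q d m r w B M)^[L] (V M θ) x ≤ C * lam ^ L * V M θ x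

/-- **ETA** (continuity in `η` at `0` of finitely many functions `fac d m η j ^ θ`, `fac d m 0 j = m_j/d`). -/
def S_ETA : Prop := ∀ (d : ℕ) (m : ℤ → ℤ), 2 ≤ d → (∀ j : ℤ, 0 ≤ j → j < d → 0 < m j) → ∀ θ lam ε : ℝ, 0 < θ →
  0 < ε → ε < 1 → (∑ j ∈ range d, ((m (j : ℤ) : ℝ) / d) ^ θ) / d < lam →
    (∀ j ∈ range d, (1 - ε) * ((m (j : ℤ) : ℝ) / d) ^ θ < lam) →
    ∃ η : ℝ, 0 < η ∧ (∑ j ∈ range d, fac d m η j ^ θ) / d < lam ∧ ∀ j ∈ range d, (1 - ε) * fac d m η j ^ θ < lam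

/-- **BCc** (Borel–Cantelli; compare `Pool/Agent/U981/RP/FIN.lean`, `Pool/Agent/U445/CY/BC.lean`).
`ind M ≤ V M θ` (`M ≥ 1`), so PRB gives probability `≤ C lam^L |x|^θ ≤ C (2+|x|)^(θ - c log(1/lam))` with
`L = ⌈c log(2+|x|)⌉₊`, exponent `< -1`, summable over `ℤ`. -/
def S_BCc : Prop := S_PRB → ∀ (d : ℕ) (m r : ℤ → ℤ) (μ : Measure ℤ) [IsProbabilityMeasure μ] (B : ℕ),
  μ {u : ℤ | (B : ℤ) < |u|} = 0 → ∀ M C lam θ c : ℝ, 1 ≤ M → 0 < C → 0 < lam → lam < 1 → 0 < θ →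
    1 + θ < c * Real.log (1 / lam) →
    (∀ (L : ℕ) (x : ℤ), (Q d m r (fun u => μ.real {u}) B M)^[L] (V M θ) x ≤ C * lam ^ L * V M θ x) →
    ∀ᵐ ω ∂(Measure.infinitePi fun _ : ℤ => μ),
      {x : ℤ | Long d m r M ⌈c * Real.log (2 + |(x : ℝ)|)⌉₊ x ω}.Finite

/-- **DETc** (deterministic; adapt `Pool/Agent/U898/RP/DET.lean`, here with the same constant `c`).  Let `F` be the
finite set of the exceptional `x` and of the `|x| < M`.  `x ∉ F`: within `L = ⌈c log(2+|x|)⌉₊` steps the orbit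
repeats (at most `L` elements) or enters `F`; all orbits are finite as in DET; with `D` the maximal size of an orbit
of an element of `F` the orbit of `x` has at most `L + D` elements. -/
def S_DETc : Prop := ∀ (d : ℕ) (m r : ℤ → ℤ) (M c : ℝ) (ω : ℤ → ℤ), 0 < c →
  {x : ℤ | Long d m r M ⌈c * Real.log (2 + |(x : ℝ)|)⌉₊ x ω}.Finite →
    ∃ C : ℝ, ∀ x : ℤ, (Set.range fun i : ℕ => (stp d m r ω)^[i] x).Finite ∧
      ((Set.range fun i : ℕ => (stp d m r ω)^[i] x).ncard : ℝ) ≤ c * Real.log (2 + |(x : ℝ)|) + C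

/-- **NUM** (numerical, `lam = 0.9671`): `(1/2)^(2/5) < 0.7579` as `1/4 < 0.7579^5`; `(3/2)^(2/5) < 1.1761` as
`9/4 < 1.1761^5`; `log (1/0.9671) > 1/30` as `exp (1/30) < 1/0.9671`. -/
def S_NUM : Prop := ((1 / 2 : ℝ) ^ (2 / 5 : ℝ) + (3 / 2 : ℝ) ^ (2 / 5 : ℝ)) / 2 < 0.9671 ∧
  (4 / 5 : ℝ) * (3 / 2 : ℝ) ^ (2 / 5 : ℝ) < 0.9671 ∧ (4 / 5 : ℝ) * (1 / 2 : ℝ) ^ (2 / 5 : ℝ) < 0.9671 ∧
  (1 : ℝ) + 2 / 5 < 42 * Real.log (1 / 0.9671)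

end Pool.Agent.U762.GA
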